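import Mathlib

set_option autoImplicit false

namespace Pool.Agent.X80.BP

universe u
variable {V : Type u}

/-- Two walks without backtracking in a graph of maximum degree two agree once they share their
first two vertices. -/
lemma follow (H : SimpleGraph V)
    (hdeg : ∀ v x y z, H.Adj v x → H.Adj v y → H.Adj v z → x = y ∨ y = z ∨ x = z)
    (x y : ℕ → V) (N : ℕ) (hx : ∀ i, i < N → H.Adj (x i) (x (i + 1)))
    (hy : ∀ i, i < N → H.Adj (y i) (y (i + 1)))
    (hx2 : ∀ i, i + 2 ≤ N → x (i + 2) ≠ x i) (hy2 : ∀ i, i + 2 ≤ N → y (i + 2) ≠ y i)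
    (h0 : x 0 = y 0) (h1 : x 1 = y 1) :
    ∀ i, (i ≤ N → x i = y i) ∧ (i + 1 ≤ N → x (i + 1) = y (i + 1)) := by
  intro i
  induction i with
  | zero => exact ⟨fun _ => h0, fun _ => h1⟩
  | succ i ih =>
    refine ⟨ih.2, fun hN => ?_⟩
    have e1 := ih.1 (by omega)
    have e2 := ih.2 (by omega)
    have a1 : H.Adj (x (i + 1)) (x i) := (hx i (by omega)).symm
    have a2 : H.Adj (x (i + 1)) (x (i + 2)) := hx (i + 1) (by omega)
    have a3 : H.Adj (x (i + 1)) (y (i + 2)) := by
      rw [e2]
      exact hy (i + 1) (by omega)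
    rcases hdeg _ _ _ _ a1 a2 a3 with h | h | h
    · exact absurd h.symm (hx2 i hN)
    · exact h
    · rw [e1] at h
      exact absurd h.symm (hy2 i hN)

/-- A path with `t` edges in a graph of maximum degree two which shares an edge with the middle
third of a path with `3 t` edges is a part of it. -/
lemma seg (H : SimpleGraph V)
    (hdeg : ∀ v x y z, H.Adj v x → H.Adj v y → H.Adj v z → x = y ∨ y = z ∨ x = z)
    (P q : ℕ → V) (t : ℕ) (hP : ∀ i, i < 3 * t → H.Adj (P i) (P (i + 1)))
    (hPi : ∀ i j, i ≤ 3 * t → j ≤ 3 * t → P i = P j → i = j)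
    (hq : ∀ i, i < t → H.Adj (q i) (q (i + 1)))
    (hqi : ∀ i j, i ≤ t → j ≤ t → q i = q j → i = j)
    (a j : ℕ) (ha1 : t ≤ a) (ha2 : a < 2 * t) (hj : j < t) (e0 : q j = P a)
    (e1 : q (j + 1) = P (a + 1)) (s : ℕ) (hs : s < t) :
    ∃ b, b < 3 * t ∧ q s = P b ∧ q (s + 1) = P (b + 1) := by
  rcases Nat.lt_or_ge s j with hsj | hsj
  · have key := follow H hdeg (fun m => q (j + 1 - m)) (fun m => P (a + 1 - m)) (j + 1)
      (fun i hi => by
        have := (hq (j - i) (by omega)).symm
        have e : j - i + 1 = j + 1 - i := by omega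
        rw [e] at this
        have e' : j + 1 - (i + 1) = j - i := by omega
        show H.Adj (q (j + 1 - i)) (q (j + 1 - (i + 1)))
        rw [e']
        exact this)
      (fun i hi => by
        have := (hP (a - i) (by omega)).symm
        have e : a - i + 1 = a + 1 - i := by omega
        rw [e] at this
        have e' : a + 1 - (i + 1) = a - i := by omega
        show H.Adj (P (a + 1 - i)) (P (a + 1 - (i + 1)))
        rw [e']
        exact this)
      (fun i hi h => by
        have := hqi _ _ (by omega) (by omega) h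
        omega)
      (fun i hi h => by
        have := hPi _ _ (by omega) (by omega) h
        omega)
      (by simpa using e1) (by simpa using e0) (j - s)
    have k1 := key.1 (by omega)
    have k2 := key.2 (by omega)
    refine ⟨a - (j - s), by omega, ?_, ?_⟩
    · have u1 : j + 1 - (j - s + 1) = s := by omega
      have u2 : a + 1 - (j - s + 1) = a - (j - s) := by omega
      rw [u1, u2] at k2
      exact k2
    · have u1 : j + 1 - (j - s) = s + 1 := by omega
      have u2 : a + 1 - (j - s) = a - (j - s) + 1 := by omega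
      rw [u1, u2] at k1
      exact k1
  · have key := follow H hdeg (fun m => q (j + m)) (fun m => P (a + m)) (t - j)
      (fun i hi => hq (j + i) (by omega))
      (fun i hi => hP (a + i) (by omega))
      (fun i hi h => by
        have := hqi _ _ (by omega) (by omega) h
        omega)
      (fun i hi h => by
        have := hPi _ _ (by omega) (by omega) h
        omega)
      (by simpa using e0) (by simpa using e1) (s - j)
    have k1 := key.1 (by omega)
    have k2 := key.2 (by omega)
    refine ⟨a + (s - j), by omega, ?_, ?_⟩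
    · have u1 : j + (s - j) = s := by omega
      rw [u1] at k1
      exact k1
    · have u1 : j + (s - j + 1) = s + 1 := by omega
      have u2 : a + (s - j + 1) = a + (s - j) + 1 := by omega
      rw [u1, u2] at k2
      exact k2

/-- The base partition. -/
theorem base [Finite V] (G : SimpleGraph V) (hG : ∀ v, {w | G.Adj v w}.ncard ≤ 3) :
    ∃ f : V → V, (∀ x y, f x = f y → ∃ p : G.Walk x y, ∀ z ∈ p.support, f z = f x) ∧
      (∀ r, {v | f v = r}.ncard ≤ 13) ∧
      (∀ v w, G.Adj v w → ∃ u, G.Adj v u ∧ f u = f v) := by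
  classical
  have := Fintype.ofFinite V
  obtain ⟨D, hD, hmax⟩ : ∃ D : Finset V, (∀ x ∈ D, ∀ y ∈ D, ¬ G.Adj x y) ∧
      ∀ E : Finset V, (∀ x ∈ E, ∀ y ∈ E, ¬ G.Adj x y) → D ⊆ E → E = D := by
    obtain ⟨D, hD, hm⟩ := Finset.exists_max_image
      (Finset.univ.filter (fun s : Finset V => ∀ x ∈ s, ∀ y ∈ s, ¬ G.Adj x y)) Finset.card
      ⟨∅, by simp⟩
    refine ⟨D, (Finset.mem_filter.1 hD).2, fun E hE hDE => ?_⟩
    exact (Finset.eq_of_subset_of_card_le hDE
      (hm E (Finset.mem_filter.2 ⟨Finset.mem_univ _, hE⟩))).symm
  have hcov : ∀ v, ∃ u ∈ D, (v ∈ D → u = v) ∧ (v ∉ D → G.Adj v u) := by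
    intro v
    by_cases hv : v ∈ D
    · exact ⟨v, hv, fun _ => rfl, fun h => absurd hv h⟩
    · by_contra hcon
      push Not at hcon
      have h1 : ∀ u ∈ D, ¬ G.Adj v u := fun u hu =>
        (hcon u hu (fun h => absurd h hv)).2
      have h2 := hmax (insert v D) (by
        intro x hx y hy
        rw [Finset.mem_insert] at hx hy
        rcases hx with rfl | hx <;> rcases hy with rfl | hy
        · exact G.irrefl
        · exact h1 y hy
        · exact fun h => h1 x hx h.symm
        · exact hD x hx y hy) (Finset.subset_insert _ _)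
      exact hv (h2 ▸ Finset.mem_insert_self v D)
  choose g gD g1 g2 using hcov
  set L : V → Prop := fun d => d ∈ D ∧ (∀ v, v ∉ D → g v ≠ d) ∧ ∃ w, G.Adj d w with hL
  have hnb : ∀ d, ∃ w, L d → G.Adj d w := by
    intro d
    by_cases h : L d
    · obtain ⟨w, hw⟩ := h.2.2
      exact ⟨w, fun _ => hw⟩
    · exact ⟨d, fun h' => absurd h' h⟩
  choose nb hnb using hnb
  have nbD : ∀ d, L d → nb d ∉ D := fun d hd h => hD d hd.1 _ h (hnb d hd)
  have Lg : ∀ v, v ∉ D → ¬ L (g v) := fun v hv h => h.2.1 v hv rfl
  set f : V → V := fun v => if L v then g (nb v) else g v with hf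
  have f1 : ∀ v, L v → f v = g (nb v) := fun v hv => if_pos hv
  have f2 : ∀ v, ¬ L v → f v = g v := fun v hv => if_neg hv
  have f3 : ∀ v, v ∉ D → f v = g v := fun v hv => f2 v (fun h => hv h.1)
  have fL : ∀ v, ¬ L (f v) := by
    intro v
    by_cases h : L v
    · rw [f1 v h]
      exact Lg _ (nbD v h)
    · rw [f2 v h]
      by_cases hv : v ∈ D
      · rw [g1 v hv]
        exact h
      · exact Lg v hv
  have fD : ∀ v, f v ∈ D := by
    intro v
    by_cases h : L v
    · rw [f1 v h]
      exact gD _
    · rw [f2 v h]
      exact gD _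
  have ff : ∀ v, f (f v) = f v := fun v => by
    rw [f2 (f v) (fL v), g1 _ (fD v)]
  have hw : ∀ v, ∃ p : G.Walk v (f v), ∀ z ∈ p.support, f z = f v := by
    intro v
    by_cases h : L v
    · have e := f1 v h
      have a1 := hnb v h
      have a2 := g2 (nb v) (nbD v h)
      rw [e]
      refine ⟨SimpleGraph.Walk.cons a1 (SimpleGraph.Walk.cons a2 SimpleGraph.Walk.nil), ?_⟩
      intro z hz
      simp only [SimpleGraph.Walk.support_cons, SimpleGraph.Walk.support_nil, List.mem_cons,
        List.not_mem_nil, or_false] at hz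
      rcases hz with rfl | rfl | rfl
      · exact e
      · exact f3 _ (nbD v h)
      · rw [← e]
        exact ff v
    · have e := f2 v h
      by_cases hv : v ∈ D
      · have e' : f v = v := by rw [e, g1 v hv]
        rw [e']
        refine ⟨SimpleGraph.Walk.nil, ?_⟩
        intro z hz
        simp only [SimpleGraph.Walk.support_nil, List.mem_cons, List.not_mem_nil, or_false] at hz
        rw [hz, e']
      · have a1 := g2 v hv
        rw [e]
        refine ⟨SimpleGraph.Walk.cons a1 SimpleGraph.Walk.nil, ?_⟩
        intro z hz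
        simp only [SimpleGraph.Walk.support_cons, SimpleGraph.Walk.support_nil, List.mem_cons,
          List.not_mem_nil, or_false] at hz
        rcases hz with rfl | rfl
        · exact e
        · rw [← e]
          exact ff v
  refine ⟨f, ?_, ?_, ?_⟩
  · intro x y hxy
    obtain ⟨p, hp⟩ := hw x
    have h2 := hw y
    rw [← hxy] at h2
    obtain ⟨q, hq⟩ := h2
    refine ⟨p.append q.reverse, ?_⟩
    intro z hz
    rw [SimpleGraph.Walk.mem_support_append_iff, SimpleGraph.Walk.support_reverse,
      List.mem_reverse] at hz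
    rcases hz with hz | hz
    · exact hp z hz
    · exact hq z hz
  · intro r
    set N : V → Finset V := fun v => Finset.univ.filter (fun w => G.Adj v w) with hN
    have hNc : ∀ v, (N v).card ≤ 3 := by
      intro v
      have := hG v
      rwa [Set.ncard_eq_toFinset_card', show Set.toFinset {w | G.Adj v w} = N v by
        ext w; simp [hN]] at this
    have hsub : {v | f v = r} ⊆ ((insert r (N r) ∪ (N r).biUnion N : Finset V) : Set V) := by
      intro v hv
      have hv' : f v = r := hv
      rw [Finset.mem_coe, Finset.mem_union, Finset.mem_insert, Finset.mem_biUnion]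
      by_cases h : L v
      · rw [f1 v h] at hv'
        right
        refine ⟨nb v, ?_, ?_⟩
        · simp only [hN, Finset.mem_filter, Finset.mem_univ, true_and]
          rw [← hv']
          exact (g2 _ (nbD v h)).symm
        · simp only [hN, Finset.mem_filter, Finset.mem_univ, true_and]
          exact (hnb v h).symm
      · rw [f2 v h] at hv'
        left
        by_cases hvD : v ∈ D
        · left
          rw [← hv', g1 v hvD]
        · right
          simp only [hN, Finset.mem_filter, Finset.mem_univ, true_and]
          rw [← hv']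
          exact (g2 v hvD).symm
    calc {v | f v = r}.ncard ≤ ((insert r (N r) ∪ (N r).biUnion N : Finset V) : Set V).ncard :=
          Set.ncard_le_ncard hsub (Finset.finite_toSet _)
      _ = (insert r (N r) ∪ (N r).biUnion N).card := Set.ncard_coe_finset _
      _ ≤ (insert r (N r)).card + ((N r).biUnion N).card := Finset.card_union_le _ _
      _ ≤ 4 + 9 := by
          apply Nat.add_le_add
          · exact (Finset.card_insert_le _ _).trans (by have := hNc r; omega)
          · refine (Finset.card_biUnion_le_card_mul _ _ 3 (fun a _ => hNc a)).trans ?_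
            have := hNc r
            omega
      _ = 13 := rfl
  · intro v w hvw
    by_cases h : L v
    · exact ⟨nb v, hnb v h, by rw [f3 _ (nbD v h), f1 v h]⟩
    · by_cases hv : v ∈ D
      · have : ∃ u, u ∉ D ∧ g u = v := by
          by_contra hcon
          push Not at hcon
          exact h ⟨hv, hcon, w, hvw⟩
        obtain ⟨u, hu, hgu⟩ := this
        refine ⟨u, ?_, ?_⟩
        · have := (g2 u hu).symm
          rwa [hgu] at this
        · rw [f3 u hu, hgu, f2 v h, g1 v hv]
      · refine ⟨g v, g2 v hv, ?_⟩
        rw [f3 v hv, ← f3 v hv]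
        exact ff v

end Pool.Agent.X80.BP
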