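import Mathlib
import Pool.Agent.H931R2.Haxell
import Pool.Agent.X80.BP.Base

set_option autoImplicit false

namespace Pool.Agent.X80.BP

open Classical

universe u
variable {V : Type u}

/-- the edges of `G` between different parts -/
def cut (G : SimpleGraph V) (f : V → V) : SimpleGraph V where
  Adj x y := G.Adj x y ∧ f x ≠ f y
  symm := ⟨fun _ _ h => ⟨h.1.symm, h.2.symm⟩⟩
  loopless := ⟨fun _ h => h.2 rfl⟩

lemma cut_deg [Finite V] (G : SimpleGraph V) (hG : ∀ v, {w | G.Adj v w}.ncard ≤ 3) (f : V → V)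
    (hf : ∀ v w, G.Adj v w → ∃ u, G.Adj v u ∧ f u = f v) :
    ∀ v x y z, (cut G f).Adj v x → (cut G f).Adj v y → (cut G f).Adj v z →
      x = y ∨ y = z ∨ x = z := by
  intro v x y z hx hy hz
  by_contra hcon
  push Not at hcon
  obtain ⟨u, hu, hfu⟩ := hf v x hx.1
  have hux : u ≠ x := fun h => hx.2 (h ▸ hfu.symm)
  have huy : u ≠ y := fun h => hy.2 (h ▸ hfu.symm)
  have huz : u ≠ z := fun h => hz.2 (h ▸ hfu.symm)
  have h1 : ({u, x, y, z} : Finset V).card = 4 := by
    rw [Finset.card_insert_of_notMem (by simp [hux, huy, huz]),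
      Finset.card_insert_of_notMem (by simp [hcon.1, hcon.2.2]),
      Finset.card_insert_of_notMem (by simp [hcon.2.1]), Finset.card_singleton]
  have h2 : (({u, x, y, z} : Finset V) : Set V) ⊆ {w | G.Adj v w} := by
    intro w hw
    simp only [Finset.coe_insert, Finset.coe_singleton, Set.mem_insert_iff,
      Set.mem_singleton_iff] at hw
    rcases hw with rfl | rfl | rfl | rfl
    · exact hu
    · exact hx.1
    · exact hy.1
    · exact hz.1
  have h3 := Set.ncard_le_ncard h2 (Set.toFinite _)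
  rw [Set.ncard_coe_finset, h1] at h3
  have := hG v
  omega

/-- the darts of the cut graph that start in one part -/
lemma darts [Fintype V] (G : SimpleGraph V) (f : V → V) (hf13 : ∀ r, {v | f v = r}.ncard ≤ 13)
    (hdeg : ∀ v x y z, (cut G f).Adj v x → (cut G f).Adj v y → (cut G f).Adj v z →
      x = y ∨ y = z ∨ x = z) (r : V) :
    (Finset.univ.filter (fun e : V × V => f e.1 = r ∧ (cut G f).Adj e.1 e.2)).card ≤ 26 := by
  set E := Finset.univ.filter (fun e : V × V => f e.1 = r ∧ (cut G f).Adj e.1 e.2) with hE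
  have h1 := Finset.card_le_mul_card_image (f := Prod.fst) E 2 (by
    intro v _
    by_contra hcon
    push Not at hcon
    obtain ⟨a, ha, b, hb, c, hc, hab, hac, hbc⟩ := Finset.two_lt_card.1 hcon
    simp only [hE, Finset.mem_filter, Finset.mem_univ, true_and] at ha hb hc
    have a1 := ha.1.2
    have b1 := hb.1.2
    have c1 := hc.1.2
    rw [ha.2] at a1
    rw [hb.2] at b1
    rw [hc.2] at c1
    rcases hdeg v _ _ _ a1 b1 c1 with h | h | h
    · exact hab (Prod.ext (ha.2.trans hb.2.symm) h)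
    · exact hbc (Prod.ext (hb.2.trans hc.2.symm) h)
    · exact hac (Prod.ext (ha.2.trans hc.2.symm) h))
  have h2 : (E.image Prod.fst).card ≤ 13 := by
    have h3 : ((E.image Prod.fst : Finset V) : Set V) ⊆ {v | f v = r} := by
      intro v hv
      rw [Finset.mem_coe, Finset.mem_image] at hv
      obtain ⟨e, he, rfl⟩ := hv
      simp only [hE, Finset.mem_filter, Finset.mem_univ, true_and] at he
      exact he.1
    have h4 := Set.ncard_le_ncard h3 (Set.toFinite _)
    rw [Set.ncard_coe_finset] at h4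
    exact h4.trans (hf13 r)
  omega

/-- windows: paths with `104` edges in the cut graph -/
def Win (H : SimpleGraph V) (p : Fin 105 → V) : Prop :=
  Function.Injective p ∧ ∀ i : Fin 104, H.Adj (p i.castSucc) (p i.succ)

/-- the edge number `i` of a window -/
def ed (p : Fin 105 → V) (i : Fin 104) : Sym2 V := s(p i.castSucc, p i.succ)

lemma ed_inj {H : SimpleGraph V} {p : Fin 105 → V} (hp : Win H p) {i j : Fin 104}
    (h : ed p i = ed p j) : i = j := by
  unfold ed at h
  rw [Sym2.eq_iff] at h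
  rcases h with ⟨h1, -⟩ | ⟨h1, h2⟩
  · exact Fin.castSucc_injective _ (hp.1 h1)
  · have e1 := congrArg Fin.val (hp.1 h1)
    have e2 := congrArg Fin.val (hp.1 h2)
    simp at e1 e2
    omega

/-- Edges of the windows, one from each, no two of which touch the same part. -/
theorem select [Fintype V] (G : SimpleGraph V) (f : V → V)
    (hf13 : ∀ r, {v | f v = r}.ncard ≤ 13)
    (hdeg : ∀ v x y z, (cut G f).Adj v x → (cut G f).Adj v y → (cut G f).Adj v z →
      x = y ∨ y = z ∨ x = z)
    (W : Finset (Fin 105 → V)) (hW : ∀ p ∈ W, Win (cut G f) p)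
    (hdis : ∀ p ∈ W, ∀ q ∈ W, p ≠ q → ∀ i j, ed p i ≠ ed q j) :
    ∃ s : {p // p ∈ W} → Fin 104, ∀ p q, p ≠ q →
      (∀ x ∈ ed p.1 (s p), ∀ y ∈ ed q.1 (s q), f x ≠ f y) := by
  set adj : {p // p ∈ W} × Fin 104 → {p // p ∈ W} × Fin 104 → Prop := fun a b =>
    ∃ x ∈ ed a.1.1 a.2, ∃ y ∈ ed b.1.1 b.2, f x = f y with hadj
  -- number of edges touching a part
  have cnt : ∀ r : V, (Finset.univ.filter (fun b : {p // p ∈ W} × Fin 104 =>
      ∃ y ∈ ed b.1.1 b.2, f y = r)).card ≤ 26 := by
    intro r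
    refine le_trans ?_ (darts G f hf13 hdeg r)
    set φ : {p // p ∈ W} × Fin 104 → V × V := fun b =>
      if f (b.1.1 b.2.castSucc) = r then (b.1.1 b.2.castSucc, b.1.1 b.2.succ)
      else (b.1.1 b.2.succ, b.1.1 b.2.castSucc) with hφ
    have hφe : ∀ b, s((φ b).1, (φ b).2) = ed b.1.1 b.2 := by
      intro b
      simp only [hφ]
      split_ifs
      · rfl
      · exact Sym2.eq_swap
    apply Finset.card_le_card_of_injOn φ
    · intro b hb
      have hb' := (Finset.mem_filter.1 (Finset.mem_coe.1 hb)).2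
      rw [Finset.mem_coe, Finset.mem_filter]
      refine ⟨Finset.mem_univ _, ?_⟩
      have hA := (hW b.1.1 b.1.2).2 b.2
      obtain ⟨y, hy, hyr⟩ := hb'
      unfold ed at hy
      rw [Sym2.mem_iff] at hy
      simp only [hφ]
      split_ifs with h
      · exact ⟨h, hA⟩
      · rcases hy with rfl | rfl
        · exact absurd hyr h
        · exact ⟨hyr, hA.symm⟩
    · intro a _ b _ hab
      have e : ed a.1.1 a.2 = ed b.1.1 b.2 := by rw [← hφe, ← hφe, hab]
      by_cases hpq : a.1.1 = b.1.1
      · have h1 : a.1 = b.1 := Subtype.ext hpq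
        rw [← hpq] at e
        exact Prod.ext h1 (ed_inj (hW a.1.1 a.1.2) e)
      · exact absurd e (hdis _ a.1.2 _ b.1.2 hpq _ _)
  have cnt2 : ∀ z, (Finset.univ.filter (fun b : {p // p ∈ W} × Fin 104 => adj b z)).card
      ≤ 52 := by
    intro z
    refine (Finset.card_le_card (t := (Finset.univ.filter (fun b : {p // p ∈ W} × Fin 104 =>
      ∃ y ∈ ed b.1.1 b.2, f y = f (z.1.1 z.2.castSucc))) ∪
      (Finset.univ.filter (fun b : {p // p ∈ W} × Fin 104 =>
      ∃ y ∈ ed b.1.1 b.2, f y = f (z.1.1 z.2.succ)))) ?_).trans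
      ((Finset.card_union_le _ _).trans (by
        have h1 := cnt (f (z.1.1 z.2.castSucc))
        have h2 := cnt (f (z.1.1 z.2.succ))
        omega))
    intro b hb
    obtain ⟨x, hx, y, hy, hxy⟩ := (Finset.mem_filter.1 hb).2
    unfold ed at hy
    rw [Sym2.mem_iff] at hy
    rw [Finset.mem_union, Finset.mem_filter, Finset.mem_filter]
    rcases hy with rfl | rfl
    · exact Or.inl ⟨Finset.mem_univ _, x, hx, hxy⟩
    · exact Or.inr ⟨Finset.mem_univ _, x, hx, hxy⟩
  obtain ⟨s, hs⟩ := Pool.Agent.H931R2.Haxell.finite (adj := adj)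
    (by
      rintro a b ⟨x, hx, y, hy, h⟩
      exact ⟨y, hy, x, hx, h.symm⟩)
    (by
      intro K hK Z hZ
      by_contra hcon
      push Not at hcon
      have h1 : K ×ˢ (Finset.univ : Finset (Fin 104)) ⊆
          Z.biUnion (fun z => Finset.univ.filter (fun b => adj b z)) := by
        intro b hb
        obtain ⟨z, hz, hbz⟩ := hcon b.1 (Finset.mem_product.1 hb).1 b.2
        exact Finset.mem_biUnion.2 ⟨z, hz, Finset.mem_filter.2 ⟨Finset.mem_univ _, hbz⟩⟩
      have h2 := Finset.card_le_card h1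
      have h3 := Finset.card_biUnion_le_card_mul Z
        (fun z => Finset.univ.filter (fun b => adj b z)) 52 (fun z _ => cnt2 z)
      rw [Finset.card_product, Finset.card_univ, Fintype.card_fin] at h2
      have h4 := hK.card_pos
      omega) Finset.univ
  refine ⟨s, fun p q hpq x hx y hy h => ?_⟩
  exact hs p (Finset.mem_univ _) q (Finset.mem_univ _) hpq ⟨x, hx, y, hy, h⟩

end Pool.Agent.X80.BP
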