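import Mathlib
import Pool.Agent.X80.BP.Main

set_option autoImplicit false

namespace Pool.Agent.X80.BP

open Classical

universe u
variable {V : Type u}

/-- a maximal family of edge-disjoint windows -/
lemma family [Fintype V] (H : SimpleGraph V) : ∃ W : Finset (Fin 105 → V),
    (∀ p ∈ W, Win H p) ∧ (∀ p ∈ W, ∀ q ∈ W, p ≠ q → ∀ i j, ed p i ≠ ed q j) ∧
    ∀ q, Win H q → ∃ p ∈ W, ∃ i j, ed q i = ed p j := by
  obtain ⟨W, hW, hmax⟩ := Finset.exists_max_image
    (Finset.univ.filter (fun W : Finset (Fin 105 → V) => (∀ p ∈ W, Win H p) ∧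
      (∀ p ∈ W, ∀ q ∈ W, p ≠ q → ∀ i j, ed p i ≠ ed q j))) Finset.card ⟨∅, by simp⟩
  have hW' := (Finset.mem_filter.1 hW).2
  refine ⟨W, hW'.1, hW'.2, fun q hq => ?_⟩
  by_contra hcon
  push Not at hcon
  by_cases hqW : q ∈ W
  · exact hcon q hqW 0 0 rfl
  · have h1 := hmax (insert q W) (Finset.mem_filter.2 ⟨Finset.mem_univ _, by
      intro p hp
      rcases Finset.mem_insert.1 hp with rfl | hp
      · exact hq
      · exact hW'.1 p hp, by
      intro p hp r hr hpr i j
      rcases Finset.mem_insert.1 hp with hp1 | hp1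
      · rcases Finset.mem_insert.1 hr with hr1 | hr1
        · exact absurd (hp1.trans hr1.symm) hpr
        · rw [hp1]
          exact hcon r hr1 i j
      · rcases Finset.mem_insert.1 hr with hr1 | hr1
        · rw [hr1]
          exact fun h => hcon p hp1 j i h.symm
        · exact hW'.2 p hp1 r hr1 hpr i j⟩)
    rw [Finset.card_insert_of_notMem hqW] at h1
    omega

/-- Every finite graph of maximum degree at most three has a connected partition of width at most
`26` such that every clean path has length at most `312`. -/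
theorem main [Finite V] (G : SimpleGraph V) (hG : ∀ v, {w | G.Adj v w}.ncard ≤ 3) :
    ∃ R : V → V, (∀ r, (G.induce {v | R v = r}).Preconnected) ∧
      (∀ r, {v | R v = r}.ncard ≤ 26) ∧
      ∀ (u v : V) (p : G.Walk u v), p.IsPath →
        (∀ x ∈ p.support, ∀ y ∈ p.support, R x = R y → x = y) → p.length ≤ 312 := by
  have := Fintype.ofFinite V
  obtain ⟨f, hconn, h13, hnb⟩ := base G hG
  have hdeg := cut_deg G hG f hnb
  obtain ⟨W, hW, hdis, hmax⟩ := family (cut G f)
  obtain ⟨s, hs⟩ := select G f h13 hdeg W hW hdis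
  set α : {p // p ∈ W} → V := fun p => f (p.1 (s p).castSucc) with hα
  set β : {p // p ∈ W} → V := fun p => f (p.1 (s p).succ) with hβ
  have m1 : ∀ p : {p // p ∈ W}, p.1 (s p).castSucc ∈ ed p.1 (s p) := fun p =>
    Sym2.mem_mk_left _ _
  have m2 : ∀ p : {p // p ∈ W}, p.1 (s p).succ ∈ ed p.1 (s p) := fun p =>
    Sym2.mem_mk_right _ _
  have hne : ∀ p q, α p ≠ β q := by
    intro p q
    by_cases hpq : p = q
    · subst hpq
      exact ((hW p.1 p.2).2 (s p)).2
    · exact hs p q hpq _ (m1 p) _ (m2 q)
  have hαi : ∀ p q, α p = α q → p = q := by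
    intro p q h
    by_contra hpq
    exact hs p q hpq _ (m1 p) _ (m1 q) h
  have hβi : ∀ p q, β p = β q → p = q := by
    intro p q h
    by_contra hpq
    exact hs p q hpq _ (m2 p) _ (m2 q) h
  set R : V → V := fun v => if h : ∃ p, β p = f v then α h.choose else f v with hR
  have R1 : ∀ v p, β p = f v → R v = α p := by
    intro v p h
    have h' : ∃ p, β p = f v := ⟨p, h⟩
    have e : R v = α h'.choose := dif_pos h'
    rw [e, hβi _ _ (h'.choose_spec.trans h.symm)]
  have R2 : ∀ v, (∀ p, β p ≠ f v) → R v = f v := by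
    intro v h
    exact dif_neg (fun ⟨p, hp⟩ => h p hp)
  have RR : ∀ x y, f x = f y → R x = R y := by
    intro x y h
    simp only [hR, h]
  have Rα : ∀ v p, f v = α p → R v = α p := by
    intro v p h
    rw [R2 v (fun q hq => hne p q (by rw [← h, hq])), h]
  have C1 : ∀ x y, f x = f y → ∃ p : G.Walk x y, ∀ z ∈ p.support, R z = R x := by
    intro x y h
    obtain ⟨p, hp⟩ := hconn x y h
    exact ⟨p, fun z hz => RR _ _ (hp z hz)⟩
  have C2 : ∀ x y p, β p = f x → f y = α p → ∃ w : G.Walk x y, ∀ z ∈ w.support, R z = α p := by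
    intro x y p hx hy
    obtain ⟨w1, h1⟩ := C1 x (p.1 (s p).succ) hx.symm
    obtain ⟨w2, h2⟩ := C1 (p.1 (s p).castSucc) y hy.symm
    have hadj : G.Adj (p.1 (s p).succ) (p.1 (s p).castSucc) := ((hW p.1 p.2).2 (s p)).1.symm
    refine ⟨w1.append (SimpleGraph.Walk.cons hadj w2), ?_⟩
    intro z hz
    rw [SimpleGraph.Walk.mem_support_append_iff, SimpleGraph.Walk.support_cons,
      List.mem_cons] at hz
    rcases hz with hz | rfl | hz
    · rw [h1 z hz]
      exact R1 x p hx
    · exact R1 _ p rfl
    · rw [h2 z hz]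
      exact Rα _ p rfl
  have C3 : ∀ x y, R x = R y → ∃ p : G.Walk x y, ∀ z ∈ p.support, R z = R x := by
    intro x y h
    by_cases hxp : ∃ p, β p = f x <;> by_cases hyp : ∃ p, β p = f y
    · obtain ⟨p, hp⟩ := hxp
      obtain ⟨q, hq⟩ := hyp
      rw [R1 x p hp, R1 y q hq] at h
      have := hαi _ _ h
      subst this
      exact C1 x y (hp.symm.trans hq)
    · obtain ⟨p, hp⟩ := hxp
      have e : R y = f y := R2 y (fun q hq => hyp ⟨q, hq⟩)
      rw [e, R1 x p hp] at h
      obtain ⟨w, hw⟩ := C2 x y p hp h.symm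
      exact ⟨w, fun z hz => by rw [hw z hz, R1 x p hp]⟩
    · obtain ⟨q, hq⟩ := hyp
      have e : R x = f x := R2 x (fun p hp => hxp ⟨p, hp⟩)
      have h' := h
      rw [e, R1 y q hq] at h
      obtain ⟨w, hw⟩ := C2 y x q hq h
      refine ⟨w.reverse, fun z hz => ?_⟩
      rw [SimpleGraph.Walk.support_reverse, List.mem_reverse] at hz
      rw [hw z hz, h', R1 y q hq]
    · rw [R2 x (fun p hp => hxp ⟨p, hp⟩), R2 y (fun q hq => hyp ⟨q, hq⟩)] at h
      exact C1 x y h
  refine ⟨R, ?_, ?_, ?_⟩
  · intro r x y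
    obtain ⟨w, hw⟩ := C3 x.1 y.1 (x.2.trans y.2.symm)
    exact ⟨(w.induce {v | R v = r} (fun z hz => (hw z hz).trans x.2))⟩
  · intro r
    set b : V := if h : ∃ p, α p = r then β h.choose else r with hb
    have hsub : {v | R v = r} ⊆ {v | f v = r} ∪ {v | f v = b} := by
      intro v hv
      have hv' : R v = r := hv
      by_cases h : ∃ p, β p = f v
      · obtain ⟨p, hp⟩ := h
        right
        rw [R1 v p hp] at hv'
        have h' : ∃ p, α p = r := ⟨p, hv'⟩
        have e : b = β h'.choose := dif_pos h'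
        show f v = b
        rw [e, hαi _ _ (h'.choose_spec.trans hv'.symm), hp]
      · left
        rw [R2 v (fun q hq => h ⟨q, hq⟩)] at hv'
        exact hv'
    have h1 := Set.ncard_le_ncard hsub (Set.toFinite _)
    have h2 := Set.ncard_union_le {v | f v = r} {v | f v = b}
    have h3 := h13 r
    have h4 := h13 b
    omega
  · intro u v p hp hcl
    by_contra hlen
    push Not at hlen
    set P : ℕ → V := p.getVert with hP
    have PR : ∀ i j, R (P i) = R (P j) → P i = P j := fun i j h =>
      hcl _ (p.getVert_mem_support i) _ (p.getVert_mem_support j) h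
    have Pinj : ∀ i j, i ≤ 312 → j ≤ 312 → P i = P j → i = j := by
      intro i j hi hj h
      exact hp.getVert_injOn (by show i ≤ p.length; omega) (by show j ≤ p.length; omega) h
    have Padj : ∀ i, i < 312 → (cut G f).Adj (P i) (P (i + 1)) := by
      intro i hi
      have h1 : G.Adj (P i) (P (i + 1)) := p.adj_getVert_succ (by omega)
      refine ⟨h1, fun h => h1.ne (PR _ _ (RR _ _ h))⟩
    set q0 : Fin 105 → V := fun i => P (104 + i) with hq0
    have hq0W : Win (cut G f) q0 := by
      refine ⟨?_, ?_⟩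
      · intro i j h
        have := Pinj _ _ (by omega) (by omega) h
        exact Fin.ext (by omega)
      · intro i
        have := Padj (104 + i) (by omega)
        simpa [hq0, add_assoc] using this
    obtain ⟨w, hw, i, j, hij⟩ := hmax q0 hq0W
    have hwW := hW w hw
    set q : ℕ → V := fun n => if h : n < 105 then w ⟨n, h⟩ else w 0 with hq
    have qe : ∀ n (h : n < 105), q n = w ⟨n, h⟩ := fun n h => dif_pos h
    have qadj : ∀ n, n < 104 → (cut G f).Adj (q n) (q (n + 1)) := by
      intro n hn
      rw [qe n (by omega), qe (n + 1) (by omega)]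
      exact hwW.2 ⟨n, hn⟩
    have qinj : ∀ a b, a ≤ 104 → b ≤ 104 → q a = q b → a = b := by
      intro a b ha hb h
      rw [qe a (by omega), qe b (by omega)] at h
      have := congrArg Fin.val (hwW.1 h)
      exact this
    set S : Fin 104 := s ⟨w, hw⟩ with hS
    have key : ∃ b, b < 312 ∧ ((q S = P b ∧ q (S + 1) = P (b + 1)) ∨
        (q S = P (b + 1) ∧ q (S + 1) = P b)) := by
      unfold ed at hij
      have c1 : q0 i.castSucc = P (104 + i) := rfl
      have c2 : q0 i.succ = P (104 + i + 1) := by
        simp [hq0, add_assoc]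
      have c3 : w j.castSucc = q j := by
        rw [qe j (by omega)]
        rfl
      have c4 : w j.succ = q (j + 1) := by
        rw [qe (j + 1) (by omega)]
        rfl
      rw [c1, c2, c3, c4, Sym2.eq_iff] at hij
      rcases hij with ⟨h1, h2⟩ | ⟨h1, h2⟩
      · obtain ⟨b, hb, k1, k2⟩ := seg (cut G f) hdeg P q 104 Padj Pinj qadj qinj (104 + i) j
          (by omega) (by omega) j.2 h1.symm h2.symm S S.2
        exact ⟨b, hb, Or.inl ⟨k1, k2⟩⟩
      · obtain ⟨b, hb, k1, k2⟩ := seg (cut G f) hdeg (fun n => P (312 - n)) q 104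
          (fun n hn => by
            have := (Padj (312 - (n + 1)) (by omega)).symm
            have e : 312 - (n + 1) + 1 = 312 - n := by omega
            rw [e] at this
            exact this)
          (fun a b ha hb h => by
            have := Pinj _ _ (by omega) (by omega) h
            omega) qadj qinj (312 - (104 + i + 1)) j
          (by omega) (by omega) j.2
          (by
            have e : 312 - (312 - (104 + (i : ℕ) + 1)) = 104 + i + 1 := by omega
            simp only [e]
            exact h2.symm)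
          (by
            have e : 312 - (312 - (104 + (i : ℕ) + 1) + 1) = 104 + i := by omega
            simp only [e]
            exact h1.symm) S S.2
        refine ⟨312 - (b + 1), by omega, Or.inr ⟨?_, k2⟩⟩
        have e : 312 - (b + 1) + 1 = 312 - b := by omega
        rw [e]
        exact k1
    have hRq : R (q S) = R (q (S + 1)) := by
      have c3 : q S = w S.castSucc := by
        rw [qe S (by omega)]
        rfl
      have c4 : q (S + 1) = w S.succ := by
        rw [qe (S + 1) (by omega)]
        rfl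
      rw [c3, c4, R1 (w S.succ) ⟨w, hw⟩ rfl]
      exact Rα _ ⟨w, hw⟩ rfl
    obtain ⟨b, hb, ⟨k1, k2⟩ | ⟨k1, k2⟩⟩ := key
    · rw [k1, k2] at hRq
      exact (Padj b hb).ne (PR _ _ hRq)
    · rw [k1, k2] at hRq
      exact (Padj b hb).ne (PR _ _ hRq.symm)

end Pool.Agent.X80.BP
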